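import Pool.Agent.Lib.MP_5fcc10_co_lin.AllFin
import Pool.Agent.Lib.MP_5fcc10_co_lin.Upper

namespace Pool.Agent.Results.MP_5fcc10_co.Asymptotic

/-- The largest number `m` of pairwise orthogonal (and distinct) Dilworth decompositions of the
Boolean lattice of subsets of an `n`-set is asymptotically `n / 2`: for every `δ > 0` and all
sufficiently large `n`, `(1 / 2 - δ) * n ≤ m ≤ (n + 2) / 2` (integer division). -/
theorem result :
    ∀ δ : ℝ, 0 < δ → ∃ N : ℕ, ∀ n : ℕ, N ≤ n → ∃ m : ℕ,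
      IsGreatest
        {k : ℕ | ∃ c : Fin k → Finset (Fin n) → Fin (n.choose (n / 2)),
          (∀ i x y, c i x = c i y → x ⊆ y ∨ y ⊆ x) ∧
          (∀ i j, i ≠ j →
            (∀ x y, x ≠ y → c i x = c i y → c j x ≠ c j y) ∧
            ¬ (∀ x y, (c i x = c i y ↔ c j x = c j y)))} m ∧
      (1 / 2 - δ) * n ≤ m ∧ m ≤ (n + 2) / 2 := by
  intro δ hδ
  obtain ⟨N1, h1⟩ := Pool.Agent.SK.Lin.all_lin (δ / 2) (by linarith)
  obtain ⟨N2, h2⟩ := exists_nat_gt (2 / δ)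
  refine ⟨N1 + N2 + 1, fun n hn => ?_⟩
  set S : Set ℕ := {k : ℕ | ∃ c : Fin k → Finset (Fin n) → Fin (n.choose (n / 2)),
          (∀ i x y, c i x = c i y → x ⊆ y ∨ y ⊆ x) ∧
          (∀ i j, i ≠ j →
            (∀ x y, x ≠ y → c i x = c i y → c j x ≠ c j y) ∧
            ¬ (∀ x y, (c i x = c i y ↔ c j x = c j y)))} with hS
  have hup : ∀ k ∈ S, k ≤ (n + 2) / 2 := by
    rintro k ⟨c, hc1, hc2⟩
    exact Pool.Agent.SK.Lin.upper (by omega) c hc1 (fun i j hij => (hc2 i j hij).1)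
  have hbdd : BddAbove S := ⟨(n + 2) / 2, fun k hk => hup k hk⟩
  have hlow : ∀ m : ℕ, (m:ℝ) ≤ (1 / 2 - δ / 2) * n → m ∈ S := fun m hm => h1 n (by omega) m hm
  have hn2 : 1 ≤ δ / 2 * n := by
    have h3 : (N2:ℝ) ≤ n := by exact_mod_cast (by omega : N2 ≤ n)
    have h4 : 2 / δ < n := lt_of_lt_of_le h2 h3
    rw [div_lt_iff₀ hδ] at h4
    linarith
  have hne : S.Nonempty := by
    by_cases h3 : 0 ≤ (1 / 2 - δ / 2) * (n:ℝ)
    · exact ⟨0, hlow 0 (by exact_mod_cast h3)⟩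
    · exact ⟨0, ⟨fun i => i.elim0, fun i => i.elim0, fun i => i.elim0⟩⟩
  have hmem := Nat.sSup_mem hne hbdd
  refine ⟨sSup S, ⟨hmem, fun k hk => le_csSup hbdd hk⟩, ?_, hup _ hmem⟩
  by_cases h3 : 0 ≤ (1 / 2 - δ / 2) * (n:ℝ)
  · have h4 : ⌊(1 / 2 - δ / 2) * (n:ℝ)⌋₊ ∈ S := hlow _ (Nat.floor_le h3)
    have h5 : (⌊(1 / 2 - δ / 2) * (n:ℝ)⌋₊ : ℝ) ≤ (sSup S : ℕ) := by
      exact_mod_cast le_csSup hbdd h4
    have h6 := Nat.lt_floor_add_one ((1 / 2 - δ / 2) * (n:ℝ))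
    linarith
  · have h4 : (0:ℝ) ≤ (sSup S : ℕ) := Nat.cast_nonneg _
    linarith

end Pool.Agent.Results.MP_5fcc10_co.Asymptotic
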